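import Mathlib

/-!
A generic set of finitely supported functions `ℕ → W`, and the back-and-forth argument for it.
-/

set_option autoImplicit false
set_option linter.unusedSimpArgs false

namespace Pool.Agent.Q104.IC

variable {W : Type} [AddCommGroup W]

/-- `u` is supported in `A`. -/
def SuppIn (u : ℕ →₀ W) (A : Finset ℕ) : Prop := ∀ t, t ∉ A → u t = 0

/-- Genericity: over each finite set `B`, each finite pattern is realised by a new point; and only
finitely many elements of `R` are supported in a given finite set. -/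
structure Generic (R : Set (ℕ →₀ W)) : Prop where
  ext : ∀ (B : Finset ℕ) (P : Set ((ℕ →₀ W) × W)), P.Finite → ∃ b, b ∉ B ∧
    ∀ u : ℕ →₀ W, SuppIn u B → ∀ w : W, w ≠ 0 → (u + Finsupp.single b w ∈ R ↔ (u, w) ∈ P)
  fin : ∀ B : Finset ℕ, {u | u ∈ R ∧ SuppIn u B}.Finite

theorem exists_generic [Countable W] : ∃ R : Set (ℕ →₀ W), Generic R := by
  classical
  obtain ⟨e, he⟩ := exists_surjective_nat (Finset ((ℕ →₀ W) × W))
  let φ : ℕ → Finset ((ℕ →₀ W) × W) := fun b => e (Nat.unpair b).1
  have hφ : ∀ P n, ∃ b, n ≤ b ∧ φ b = P := by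
    intro P n
    obtain ⟨k, hk⟩ := he P
    exact ⟨Nat.pair k n, Nat.right_le_pair _ _, by simp [φ, hk]⟩
  refine ⟨{u | ∃ b, u b ≠ 0 ∧ (∀ t, b < t → u t = 0) ∧ (u.erase b, u b) ∈ φ b}, ?_, ?_⟩
  · intro B P hP
    obtain ⟨b, hb, hφb⟩ := hφ hP.toFinset (B.sup id + 1)
    have hbB : ∀ t, t ∈ B → t < b := fun t ht =>
      lt_of_le_of_lt (Finset.le_sup (f := id) ht) hb
    have hbB' : b ∉ B := fun h => lt_irrefl _ (hbB b h)
    refine ⟨b, hbB', ?_⟩
    intro u hu w hw
    have hub : u b = 0 := hu b hbB'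
    have h1 : (u + Finsupp.single b w) b = w := by simp [hub]
    have h2 : (u + Finsupp.single b w).erase b = u := by
      ext t
      by_cases ht : t = b
      · subst ht; simp [hub]
      · simp [ht, Finsupp.single_apply, Ne.symm ht]
    constructor
    · rintro ⟨b', hb1, hb2, hb3⟩
      have hbb : b' = b := by
        rcases lt_trichotomy b' b with h | h | h
        · exact absurd (h1 ▸ hb2 b h) hw
        · exact h
        · exfalso
          apply hb1
          have h3 : b' ∉ B := fun h' => absurd (hbB b' h') (by omega)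
          simp [hu b' h3, Finsupp.single_apply, (ne_of_lt h)]
      subst hbb
      rw [h2, h1, hφb] at hb3
      exact hP.mem_toFinset.1 hb3
    · intro h
      refine ⟨b, by rw [h1]; exact hw, ?_, ?_⟩
      · intro t ht
        have h3 : t ∉ B := fun h' => absurd (hbB t h') (by omega)
        simp [hu t h3, Finsupp.single_apply, (ne_of_lt ht)]
      · rw [h2, h1, hφb]
        exact hP.mem_toFinset.2 h
  · intro B
    apply Set.Finite.subset (s := ⋃ b ∈ B, ((fun p : (ℕ →₀ W) × W => p.1 + Finsupp.single b p.2) ''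
      (φ b : Set ((ℕ →₀ W) × W))))
    · exact Set.Finite.biUnion B.finite_toSet fun b _ => (φ b).finite_toSet.image _
    · rintro u ⟨⟨b, hb1, -, hb3⟩, hu⟩
      simp only [Set.mem_iUnion]
      refine ⟨b, ?_, (u.erase b, u b), hb3, ?_⟩
      · by_contra hc
        exact hb1 (hu b hc)
      · exact Finsupp.erase_add_single b u

/-- The action of a permutation on finitely supported functions. -/
noncomputable def act (σ : Equiv.Perm ℕ) (u : ℕ →₀ W) : ℕ →₀ W := Finsupp.mapDomain σ u

theorem act_apply (σ : Equiv.Perm ℕ) (u : ℕ →₀ W) (t : ℕ) : act σ u t = u (σ.symm t) :=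
  Finsupp.mapDomain_equiv_apply _ _

theorem act_add (σ : Equiv.Perm ℕ) (u v : ℕ →₀ W) : act σ (u + v) = act σ u + act σ v :=
  Finsupp.mapDomain_add

theorem act_single (σ : Equiv.Perm ℕ) (b : ℕ) (w : W) :
    act σ (Finsupp.single b w) = Finsupp.single (σ b) w := Finsupp.mapDomain_single

theorem act_congr {σ τ : Equiv.Perm ℕ} {u : ℕ →₀ W} {A : Finset ℕ} (hu : SuppIn u A)
    (h : ∀ t ∈ A, σ t = τ t) : act σ u = act τ u := by
  refine Finsupp.mapDomain_congr fun t ht => h t ?_
  by_contra hc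
  exact (Finsupp.mem_support_iff.1 ht) (hu t hc)

theorem act_mul (σ τ : Equiv.Perm ℕ) (u : ℕ →₀ W) : act (σ * τ) u = act σ (act τ u) := by
  ext t
  rw [act_apply, act_apply, act_apply]
  rfl

theorem act_one (u : ℕ →₀ W) : act 1 u = u := by
  ext t
  rw [act_apply]
  rfl

variable {R : Set (ℕ →₀ W)}

/-- The condition: `u ↦ σ u + v` is a partial automorphism of `R` on the functions supported in
`A`. -/
def Cnd (R : Set (ℕ →₀ W)) (v : ℕ →₀ W) (σ : Equiv.Perm ℕ) (A : Finset ℕ) : Prop :=
  (∀ t, σ.symm t ∉ A → v t = 0) ∧ ∀ u, SuppIn u A → (u ∈ R ↔ act σ u + v ∈ R)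

theorem suppIn_erase {u : ℕ →₀ W} {A : Finset ℕ} {a : ℕ} (hu : SuppIn u (insert a A)) :
    SuppIn (u.erase a) A := by
  classical
  intro t ht
  by_cases h : t = a
  · subst h; simp
  · rw [Finsupp.erase_ne h]
    exact hu t (by simp [h, ht])

theorem swap_facts (σ : Equiv.Perm ℕ) {A : Finset ℕ} {a b : ℕ} (ha : a ∉ A)
    (hb : σ.symm b ∉ A) :
    (∀ t ∈ A, (Equiv.swap (σ a) b * σ) t = σ t) ∧ (Equiv.swap (σ a) b * σ) a = b := by
  refine ⟨fun t ht => ?_, by simp⟩
  rw [Equiv.Perm.mul_apply]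
  apply Equiv.swap_apply_of_ne_of_ne
  · intro h
    exact ha (σ.injective h ▸ ht)
  · rintro rfl
    exact hb (by simpa using ht)

/-- One step of the back-and-forth. -/
theorem step {v : ℕ →₀ W} {σ : Equiv.Perm ℕ} {A : Finset ℕ} {a b : ℕ} (ha : a ∉ A)
    (hb : σ.symm b ∉ A) (hv : ∀ t, σ.symm t ∉ A → t ≠ b → v t = 0)
    (h : ∀ u, SuppIn u A → ∀ w : W,
      (u + Finsupp.single a w ∈ R ↔ act σ u + Finsupp.single b w + v ∈ R)) :
    Cnd R v (Equiv.swap (σ a) b * σ) (insert a A) := by
  obtain ⟨h1, h2⟩ := swap_facts σ ha hb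
  set σ' := Equiv.swap (σ a) b * σ with hσ'
  constructor
  · intro t ht
    by_cases htb : t = b
    · subst htb
      exact absurd (by rw [(Equiv.symm_apply_eq σ').2 h2.symm]; exact Finset.mem_insert_self _ _) ht
    · refine hv t (fun hc => ht ?_) htb
      have := h1 _ hc
      rw [Equiv.apply_symm_apply] at this
      rw [(Equiv.symm_apply_eq σ').2 this.symm]
      exact Finset.mem_insert_of_mem hc
  · intro u hu
    have hu' := suppIn_erase hu
    have e : u.erase a + Finsupp.single a (u a) = u := Finsupp.erase_add_single a u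
    have := h (u.erase a) hu' (u a)
    rw [e] at this
    rw [this]
    have e2 : act σ' u = act σ (u.erase a) + Finsupp.single b (u a) := by
      conv_lhs => rw [← e]
      rw [act_add, act_single, h2, act_congr hu' h1]
    rw [e2]

theorem cnd_forth (hR : Generic R) {v : ℕ →₀ W} {σ : Equiv.Perm ℕ} {A : Finset ℕ}
    (hC : Cnd R v σ A) {a : ℕ} (ha : a ∉ A) : ∃ b, σ.symm b ∉ A ∧
      Cnd R v (Equiv.swap (σ a) b * σ) (insert a A) := by
  classical
  let P : Set ((ℕ →₀ W) × W) := (fun u : ℕ →₀ W => (act σ (u.erase a) + v, u a)) ''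
    {u | u ∈ R ∧ SuppIn u (insert a A)}
  obtain ⟨b, hb, hP⟩ := hR.ext (A.image σ) P ((hR.fin _).image _)
  have hb' : σ.symm b ∉ A := fun h => hb (Finset.mem_image.2 ⟨_, h, by simp⟩)
  refine ⟨b, hb', step ha hb' (fun t ht _ => hC.1 t ht) ?_⟩
  intro u hu w
  by_cases hw : w = 0
  · subst hw
    simpa using hC.2 u hu
  · have hs : SuppIn (act σ u + v) (A.image σ) := by
      intro t ht
      have h3 : σ.symm t ∉ A := fun h => ht (Finset.mem_image.2 ⟨_, h, by simp⟩)
      rw [Finsupp.add_apply, act_apply, hu _ h3, hC.1 t h3, add_zero]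
    have := hP (act σ u + v) hs w hw
    rw [add_right_comm (act σ u), this]
    have hua : u a = 0 := hu a ha
    have e1 : (u + Finsupp.single a w).erase a = u := by
      ext t
      by_cases ht : t = a
      · subst ht; simp [hua]
      · simp [ht, Finsupp.single_apply, Ne.symm ht]
    constructor
    · intro h
      refine ⟨u + Finsupp.single a w, ⟨h, ?_⟩, ?_⟩
      · intro t ht
        have h3 : t ≠ a := fun h => ht (by simp [h])
        have h4 : t ∉ A := fun h => ht (by simp [h])
        simp [hu t h4, Finsupp.single_apply, Ne.symm h3]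
      · simp only [e1, Finsupp.add_apply, hua, Finsupp.single_eq_same, zero_add]
    · rintro ⟨x, ⟨hx1, hx2⟩, hx3⟩
      have h5 : act σ (x.erase a) + v = act σ u + v := congrArg Prod.fst hx3
      have h6 : x a = w := congrArg Prod.snd hx3
      have h7 : x.erase a = u := by
        have h8 := add_right_cancel h5
        ext t
        have := DFunLike.congr_fun h8 (σ t)
        rw [act_apply, act_apply] at this
        simpa using this
      rw [← h7, ← h6, Finsupp.erase_add_single]
      exact hx1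

theorem cnd_back (hR : Generic R) {v : ℕ →₀ W} {σ : Equiv.Perm ℕ} {A : Finset ℕ}
    (hC : Cnd R v σ A) {b : ℕ} (hb : σ.symm b ∉ A) : ∃ a, a ∉ A ∧
      Cnd R v (Equiv.swap (σ a) b * σ) (insert a A) := by
  classical
  let P : Set ((ℕ →₀ W) × W) := (fun y : ℕ →₀ W => (act σ.symm ((y - v).erase b), y b)) ''
    {u | u ∈ R ∧ SuppIn u (insert b (A.image σ))}
  obtain ⟨a, ha, hP⟩ := hR.ext A P ((hR.fin _).image _)
  refine ⟨a, ha, step ha hb (fun t ht _ => hC.1 t ht) ?_⟩
  intro u hu w
  by_cases hw : w = 0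
  · subst hw
    simpa using hC.2 u hu
  · have := hP u hu w hw
    rw [this]
    have hvb : v b = 0 := hC.1 b hb
    have hub : act σ u b = 0 := by rw [act_apply]; exact hu _ hb
    constructor
    · rintro ⟨y, ⟨hy1, hy2⟩, hy3⟩
      have h5 : act σ.symm ((y - v).erase b) = u := congrArg Prod.fst hy3
      have h6 : y b = w := congrArg Prod.snd hy3
      have h7 : act σ u + Finsupp.single b w + v = y := by
        rw [← h5]
        have h8 : act σ (act σ.symm ((y - v).erase b)) = (y - v).erase b := by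
          rw [← act_mul]
          have : σ * σ.symm = 1 := by ext t; simp
          rw [this, act_one]
        rw [h8]
        have h9 : (y - v) b = w := by simp [hvb, h6]
        have h10 := Finsupp.erase_add_single b (y - v)
        rw [h9] at h10
        rw [h10]
        abel
      rw [h7]
      exact hy1
    · intro h
      refine ⟨_, ⟨h, ?_⟩, ?_⟩
      · intro t ht
        have h3 : t ≠ b := fun h => ht (by simp [h])
        have h4 : t ∉ A.image σ := fun h => ht (by simp only [Finset.mem_insert, h, or_true])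
        have h5 : σ.symm t ∉ A := fun h => h4 (Finset.mem_image.2 ⟨_, h, by simp⟩)
        rw [Finsupp.add_apply, Finsupp.add_apply, act_apply, hu _ h5, hC.1 t h5,
          Finsupp.single_apply, if_neg (Ne.symm h3)]
        simp
      · have e1 : (act σ u + Finsupp.single b w + v - v).erase b = act σ u := by
          rw [add_sub_cancel_right]
          ext t
          by_cases ht : t = b
          · subst ht; simp [hub]
          · simp [ht, Finsupp.single_apply, Ne.symm ht]
        have e2 : act σ.symm (act σ u) = u := by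
          rw [← act_mul]
          have : σ.symm * σ = 1 := by ext t; simp
          rw [this, act_one]
        simp only [e1, e2, Finsupp.add_apply, hub, hvb, Finsupp.single_eq_same, zero_add, add_zero]

/-- The initial step. -/
theorem initial (hR : Generic R) {v : ℕ →₀ W} {σ : Equiv.Perm ℕ} {A : Finset ℕ}
    (hv : ∀ t, σ.symm t ∉ A → v t = 0) {l : W} (hl : l ≠ 0) : ∃ a b, a ∉ A ∧ σ.symm b ∉ A ∧
      Cnd R (v + Finsupp.single b l) (Equiv.swap (σ a) b * σ) (insert a A) := by
  classical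
  let P : Set ((ℕ →₀ W) × W) := (fun y : ℕ →₀ W => (act σ.symm (y - v), -l)) ''
    {u | u ∈ R ∧ SuppIn u (A.image σ)}
  obtain ⟨a, ha, hP⟩ := hR.ext A P ((hR.fin _).image _)
  let Q : Set ((ℕ →₀ W) × W) := (fun u : ℕ →₀ W => (act σ u + v, l)) '' {u | u ∈ R ∧ SuppIn u A}
  obtain ⟨b, hb, hQ⟩ := hR.ext (A.image σ) Q ((hR.fin _).image _)
  have hb' : σ.symm b ∉ A := fun h => hb (Finset.mem_image.2 ⟨_, h, by simp⟩)
  refine ⟨a, b, ha, hb', step ha hb' ?_ ?_⟩
  · intro t ht htb
    rw [Finsupp.add_apply, hv t ht, Finsupp.single_apply, if_neg (Ne.symm htb), add_zero]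
  intro u hu w
  have hs : SuppIn (act σ u + v) (A.image σ) := by
    intro t ht
    have h3 : σ.symm t ∉ A := fun h => ht (Finset.mem_image.2 ⟨_, h, by simp⟩)
    rw [Finsupp.add_apply, act_apply, hu _ h3, hv t h3, add_zero]
  have e0 : act σ u + Finsupp.single b w + (v + Finsupp.single b l) =
      act σ u + v + Finsupp.single b (w + l) := by
    rw [Finsupp.single_add]; abel
  have inj : ∀ x y : ℕ →₀ W, act σ x = act σ y → x = y := by
    intro x y h
    ext t
    have := DFunLike.congr_fun h (σ t)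
    rw [act_apply, act_apply] at this
    simpa using this
  have cancel : ∀ x : ℕ →₀ W, act σ (act σ.symm x) = x := by
    intro x
    rw [← act_mul]
    have : σ * σ.symm = 1 := by ext t; simp
    rw [this, act_one]
  rw [e0]
  by_cases hw : w = 0
  · subst hw
    rw [zero_add, hQ _ hs l hl, Finsupp.single_zero, add_zero]
    constructor
    · intro h
      exact ⟨u, ⟨h, hu⟩, rfl⟩
    · rintro ⟨x, ⟨hx, -⟩, hx2⟩
      have := inj _ _ (add_right_cancel (congrArg Prod.fst hx2))
      rwa [← this]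
  · rw [hP u hu w hw]
    by_cases hwl : w + l = 0
    · rw [hwl, Finsupp.single_zero, add_zero]
      have hwl' : w = -l := eq_neg_of_add_eq_zero_left hwl
      constructor
      · rintro ⟨y, ⟨hy, -⟩, hy2⟩
        have : act σ.symm (y - v) = u := congrArg Prod.fst hy2
        rw [← this, cancel, sub_add_cancel]
        exact hy
      · intro h
        refine ⟨_, ⟨h, hs⟩, ?_⟩
        have : act σ.symm (act σ u + v - v) = u := by
          rw [add_sub_cancel_right]
          exact inj _ _ (cancel _)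
        simp only [this, hwl']
    · rw [hQ _ hs _ hwl]
      constructor
      · rintro ⟨y, -, hy2⟩
        have : -l = w := congrArg Prod.snd hy2
        exact absurd (by rw [← this]; simp) hwl
      · rintro ⟨y, -, hy2⟩
        have : l = w + l := congrArg Prod.snd hy2
        exact absurd (by simpa using this.symm) hw

/-- The partial automorphisms, with extension as the order. -/
def PA (R : Set (ℕ →₀ W)) (v : ℕ →₀ W) : Type :=
  {p : Equiv.Perm ℕ × Finset ℕ // Cnd R v p.1 p.2}

instance (R : Set (ℕ →₀ W)) (v : ℕ →₀ W) : Preorder (PA R v) where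
  le p q := p.1.2 ⊆ q.1.2 ∧ ∀ t ∈ p.1.2, q.1.1 t = p.1.1 t
  le_refl p := ⟨Finset.Subset.refl _, fun _ _ => rfl⟩
  le_trans p q r h1 h2 := ⟨h1.1.trans h2.1, fun t ht => (h2.2 t (h1.1 ht)).trans (h1.2 t ht)⟩

theorem le_def {v : ℕ →₀ W} (p q : PA R v) :
    p ≤ q ↔ p.1.2 ⊆ q.1.2 ∧ ∀ t ∈ p.1.2, q.1.1 t = p.1.1 t := Iff.rfl

/-- Each partial automorphism extends to an automorphism. -/
theorem extend (hR : Generic R) {v : ℕ →₀ W} {σ : Equiv.Perm ℕ} {A : Finset ℕ}
    (hC : Cnd R v σ A) : ∃ τ : Equiv.Perm ℕ, (∀ t ∈ A, τ t = σ t) ∧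
      ∀ u, u ∈ R ↔ act τ u + v ∈ R := by
  classical
  let p0 : PA R v := ⟨(σ, A), hC⟩
  let D : ℕ ⊕ ℕ → Order.Cofinal (PA R v) := fun i => match i with
    | Sum.inl a => ⟨{p | a ∈ p.1.2}, by
        rintro ⟨⟨τ, B⟩, hB⟩
        by_cases ha : a ∈ B
        · exact ⟨⟨(τ, B), hB⟩, ha, le_refl _⟩
        · obtain ⟨b, hb, hc⟩ := cnd_forth hR hB ha
          exact ⟨⟨(_, _), hc⟩, Finset.mem_insert_self _ _, Finset.subset_insert _ _,
            (swap_facts τ ha hb).1⟩⟩
    | Sum.inr b => ⟨{p | p.1.1.symm b ∈ p.1.2}, by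
        rintro ⟨⟨τ, B⟩, hB⟩
        by_cases hb : τ.symm b ∈ B
        · exact ⟨⟨(τ, B), hB⟩, hb, le_refl _⟩
        · obtain ⟨a, ha, hc⟩ := cnd_back hR hB hb
          refine ⟨⟨(_, _), hc⟩, ?_, Finset.subset_insert _ _, (swap_facts τ ha hb).1⟩
          change (Equiv.swap (τ a) b * τ).symm b ∈ insert a B
          rw [(Equiv.symm_apply_eq _).2 (swap_facts τ ha hb).2.symm]
          exact Finset.mem_insert_self _ _⟩
  let I := Order.idealOfCofinals p0 D
  have hp0 : p0 ∈ I := Order.mem_idealOfCofinals p0 D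
  have h1 : ∀ a, ∃ p ∈ I, a ∈ p.1.2 := by
    intro a
    obtain ⟨x, hx1, hx2⟩ := Order.cofinal_meets_idealOfCofinals p0 D (Sum.inl a)
    exact ⟨x, hx2, hx1⟩
  have h2 : ∀ b, ∃ p ∈ I, p.1.1.symm b ∈ p.1.2 := by
    intro b
    obtain ⟨x, hx1, hx2⟩ := Order.cofinal_meets_idealOfCofinals p0 D (Sum.inr b)
    exact ⟨x, hx2, hx1⟩
  have hdir : ∀ p ∈ I, ∀ q ∈ I, ∃ r ∈ I, p ≤ r ∧ q ≤ r := by
    intro p hp q hq
    exact I.directed p hp q hq
  choose P hP hPa using h1
  let f : ℕ → ℕ := fun a => (P a).1.1 a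
  have hf : ∀ p ∈ I, ∀ t ∈ p.1.2, f t = p.1.1 t := by
    intro p hp t ht
    obtain ⟨r, -, hr1, hr2⟩ := hdir p hp (P t) (hP t)
    exact (hr2.2 t (hPa t)).symm.trans (hr1.2 t ht)
  have hfin : ∀ S : Finset ℕ, ∃ p ∈ I, S ⊆ p.1.2 := by
    intro S
    induction S using Finset.induction_on with
    | empty => exact ⟨p0, hp0, Finset.empty_subset _⟩
    | insert a S _ ih =>
      obtain ⟨p, hp, hS⟩ := ih
      obtain ⟨r, hr, hr1, hr2⟩ := hdir p hp (P a) (hP a)
      refine ⟨r, hr, Finset.insert_subset (hr2.1 (hPa a)) (hS.trans hr1.1)⟩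
  have hinj : Function.Injective f := by
    intro s t hst
    obtain ⟨p, hp, hS⟩ := hfin {s, t}
    have hs : s ∈ p.1.2 := hS (by simp)
    have ht : t ∈ p.1.2 := hS (by simp)
    rw [hf p hp s hs, hf p hp t ht] at hst
    exact p.1.1.injective hst
  have hsurj : Function.Surjective f := by
    intro b
    obtain ⟨p, hp, hb⟩ := h2 b
    exact ⟨p.1.1.symm b, by rw [hf p hp _ hb]; simp⟩
  refine ⟨Equiv.ofBijective f ⟨hinj, hsurj⟩, ?_, ?_⟩
  · intro t ht
    exact hf p0 hp0 t ht
  · intro u
    obtain ⟨p, hp, hS⟩ := hfin u.support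
    have hu : SuppIn u p.1.2 := by
      intro t ht
      by_contra hc
      exact ht (hS (Finsupp.mem_support_iff.2 hc))
    have e : act (Equiv.ofBijective f ⟨hinj, hsurj⟩) u = act p.1.1 u :=
      act_congr hu fun t ht => hf p hp t ht
    rw [e]
    exact p.2.2 u hu

/-- Density: each affine map can be approximated by automorphisms of `R`, up to a vector
`l (δ_c - δ_x)`. -/
theorem density (hR : Generic R) (v : ℕ →₀ W) (σ : Equiv.Perm ℕ) (A : Finset ℕ) {l : W}
    (hl : l ≠ 0) : ∃ (τ : Equiv.Perm ℕ) (c x : ℕ), c ≠ x ∧ (∀ t ∈ A, τ t = σ t) ∧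
      ∀ u, u ∈ R ↔ act τ u + (v - Finsupp.single x l + Finsupp.single c l) ∈ R := by
  classical
  obtain ⟨a, ha⟩ := Infinite.exists_notMem_finset (A ∪ v.support.image σ.symm)
  have hv : ∀ t, σ.symm t ∉ insert a (A ∪ v.support.image σ.symm) →
      (v - Finsupp.single (σ a) l) t = 0 := by
    intro t ht
    simp only [Finset.mem_insert, Finset.mem_union, Finset.mem_image, not_or] at ht
    obtain ⟨h1, -, h2⟩ := ht
    have h3 : t ≠ σ a := fun h => h1 (by rw [h]; simp)
    have h4 : v t = 0 := by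
      by_contra hc
      exact h2 ⟨t, Finsupp.mem_support_iff.2 hc, rfl⟩
    rw [Finsupp.sub_apply, h4, Finsupp.single_apply, if_neg (Ne.symm h3), sub_zero]
  obtain ⟨a', b, ha', hb, hC⟩ := initial hR hv hl
  obtain ⟨τ, hτ1, hτ2⟩ := extend hR hC
  refine ⟨τ, b, σ a, ?_, ?_, hτ2⟩
  · rintro rfl
    simp at hb
  · intro t ht
    have ht' : t ∈ insert a (A ∪ v.support.image σ.symm) :=
      Finset.mem_insert_of_mem (Finset.mem_union_left _ ht)
    rw [hτ1 t (Finset.mem_insert_of_mem ht')]
    exact (swap_facts σ ha' hb).1 t ht'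

end Pool.Agent.Q104.IC
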