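import Pool.Agent.Q104.IC.Top
import Pool.Agent.Q104.IC.Gen

/-!
Irreducible coset spaces from a generic set `R` of finitely supported functions `ℕ → W`: the group
generated by the translations and by the affine maps that preserve `R`.
-/

set_option autoImplicit false
set_option linter.unusedSimpArgs false

namespace Pool.Agent.Q104.IC

open Topology

section defs

variable {G : Type} [Group G] [TopologicalSpace G]

/-- `G/H` is an irreducible coset space: `H` is a maximal proper closed subgroup. -/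
def IrreducibleCosetSpace (H : Subgroup G) : Prop :=
  IsClosed (H : Set G) ∧ H ≠ ⊤ ∧
    ∀ K : Subgroup G, IsClosed (K : Set G) → H ≤ K → K = H ∨ K = ⊤

/-- `G/H` is faithful: the intersection of the conjugates of `H` is trivial. -/
def FaithfulCosetSpace (H : Subgroup G) : Prop :=
  ∀ x : G, (∀ g : G, ∃ h ∈ H, x = g * h * g⁻¹) → x = 1

/-- The set of the minimal nontrivial closed normal subgroups. -/
def MinimalClosedNormal (G : Type) [Group G] [TopologicalSpace G] : Set (Subgroup G) :=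
  {M | M.Normal ∧ IsClosed (M : Set G) ∧ M ≠ ⊥ ∧
    ∀ N : Subgroup G, N.Normal → IsClosed (N : Set G) → N ≤ M → N = ⊥ ∨ N = M}

end defs

variable {W : Type} [AddCommGroup W]

theorem act_symm_act (σ : Equiv.Perm ℕ) (u : ℕ →₀ W) : act σ.symm (act σ u) = u := by
  rw [← act_mul]
  have : σ.symm * σ = 1 := by ext t; simp
  rw [this, act_one]

theorem act_act_symm (σ : Equiv.Perm ℕ) (u : ℕ →₀ W) : act σ (act σ.symm u) = u := by
  rw [← act_mul]
  have : σ * σ.symm = 1 := by ext t; simp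
  rw [this, act_one]

theorem act_zero (σ : Equiv.Perm ℕ) : act σ (0 : ℕ →₀ W) = 0 := by
  ext t; rw [act_apply]; rfl

theorem act_neg (σ : Equiv.Perm ℕ) (u : ℕ →₀ W) : act σ (-u) = - act σ u := by
  ext t; rw [act_apply, Finsupp.neg_apply, Finsupp.neg_apply, act_apply]

theorem act_sub (σ : Equiv.Perm ℕ) (u v : ℕ →₀ W) : act σ (u - v) = act σ u - act σ v := by
  rw [sub_eq_add_neg, act_add, act_neg, ← sub_eq_add_neg]

/-- The affine map `u ↦ σ u + v`. -/
noncomputable def aff (v : ℕ →₀ W) (σ : Equiv.Perm ℕ) : Equiv.Perm (ℕ →₀ W) where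
  toFun u := act σ u + v
  invFun u := act σ.symm (u - v)
  left_inv u := by simp [act_symm_act]
  right_inv u := by simp [act_act_symm]

theorem aff_apply (v : ℕ →₀ W) (σ : Equiv.Perm ℕ) (u : ℕ →₀ W) : aff v σ u = act σ u + v := rfl

theorem aff_mul (v v' : ℕ →₀ W) (σ σ' : Equiv.Perm ℕ) :
    aff v σ * aff v' σ' = aff (act σ v' + v) (σ * σ') := by
  ext1 u
  rw [Equiv.Perm.mul_apply, aff_apply, aff_apply, aff_apply, act_add, act_mul, add_assoc]

theorem aff_one : aff (0 : ℕ →₀ W) 1 = 1 := by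
  ext1 u
  rw [aff_apply, act_one, add_zero]
  rfl

theorem aff_inv (v : ℕ →₀ W) (σ : Equiv.Perm ℕ) : (aff v σ)⁻¹ = aff (-(act σ.symm v)) σ⁻¹ := by
  rw [inv_eq_iff_mul_eq_one, aff_mul]
  rw [act_neg, act_act_symm, neg_add_cancel, mul_inv_cancel, aff_one]

theorem aff_conj (v y : ℕ →₀ W) (σ : Equiv.Perm ℕ) :
    aff y σ * aff v 1 * (aff y σ)⁻¹ = aff (act σ v) 1 := by
  rw [mul_inv_eq_iff_eq_mul, aff_mul, aff_mul, act_one, one_mul, mul_one, add_comm]

theorem aff_inj_left {v v' : ℕ →₀ W} {σ σ' : Equiv.Perm ℕ} (h : aff v σ = aff v' σ') :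
    v = v' := by
  have := DFunLike.congr_fun h 0
  rwa [aff_apply, aff_apply, act_zero, act_zero, zero_add, zero_add] at this

variable (R : Set (ℕ →₀ W))

/-- The affine maps that preserve `R`. -/
noncomputable def HH : Subgroup (Equiv.Perm (ℕ →₀ W)) where
  carrier := {g | (∃ v σ, g = aff v σ) ∧ ∀ u, u ∈ R ↔ g u ∈ R}
  one_mem' := ⟨⟨0, 1, aff_one.symm⟩, fun u => Iff.rfl⟩
  mul_mem' := by
    rintro a b ⟨⟨v, σ, rfl⟩, ha⟩ ⟨⟨v', σ', rfl⟩, hb⟩
    exact ⟨⟨_, _, aff_mul _ _ _ _⟩, fun u => (hb u).trans (ha _)⟩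
  inv_mem' := by
    rintro a ⟨⟨v, σ, rfl⟩, ha⟩
    refine ⟨⟨_, _, aff_inv _ _⟩, fun u => ?_⟩
    have := ha ((aff v σ)⁻¹ u)
    rw [this]
    simp

/-- The group generated by the translations and `HH R`. -/
noncomputable def GG : Subgroup (Equiv.Perm (ℕ →₀ W)) where
  carrier := {g | ∃ v v' σ, g = aff v σ ∧ aff v' σ ∈ HH R}
  one_mem' := ⟨0, 0, 1, aff_one.symm, by rw [aff_one]; exact one_mem _⟩
  mul_mem' := by
    rintro a b ⟨v, v', σ, rfl, ha⟩ ⟨x, x', τ, rfl, hb⟩
    exact ⟨_, act σ x' + v', _, aff_mul _ _ _ _, by rw [← aff_mul]; exact mul_mem ha hb⟩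
  inv_mem' := by
    rintro a ⟨v, v', σ, rfl, ha⟩
    exact ⟨_, -(act σ.symm v'), _, aff_inv _ _, by rw [← aff_inv]; exact inv_mem ha⟩

variable {R}

/-- An element of `GG R` from an element of `HH R`. -/
noncomputable def mkG (v : ℕ →₀ W) (σ : Equiv.Perm ℕ) (h : aff v σ ∈ HH R) : GG R :=
  ⟨aff v σ, v, v, σ, rfl, h⟩

/-- Translations. -/
noncomputable def tr (v : ℕ →₀ W) : GG R := ⟨aff v 1, v, 0, 1, rfl, by rw [aff_one]; exact one_mem _⟩

theorem tr_mul (v v' : ℕ →₀ W) : (tr v * tr v' : GG R) = tr (v + v') := by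
  apply Subtype.ext
  change aff v 1 * aff v' 1 = aff (v + v') 1
  rw [aff_mul, act_one, one_mul, add_comm]

theorem tr_zero : (tr 0 : GG R) = 1 := Subtype.ext aff_one

theorem tr_inv (v : ℕ →₀ W) : ((tr v)⁻¹ : GG R) = tr (-v) := by
  rw [inv_eq_iff_mul_eq_one, tr_mul, add_neg_cancel, tr_zero]

theorem tr_inj {v v' : ℕ →₀ W} (h : (tr v : GG R) = tr v') : v = v' :=
  aff_inj_left (congrArg Subtype.val h)

variable (R) in
/-- The point stabiliser. -/
noncomputable def HG : Subgroup (GG R) := (HH R).subgroupOf (GG R)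

theorem mem_HG (g : GG R) : g ∈ HG R ↔ g.1 ∈ HH R := Subgroup.mem_subgroupOf

theorem decomp (g : GG R) : ∃ (v : ℕ →₀ W) (h : GG R), h ∈ HG R ∧ g = tr v * h := by
  obtain ⟨g, v, v', σ, rfl, h⟩ := g
  refine ⟨v - v', ⟨aff v' σ, v', v', σ, rfl, h⟩, h, ?_⟩
  apply Subtype.ext
  change aff v σ = aff (v - v') 1 * aff v' σ
  rw [aff_mul, act_one, one_mul]
  congr 1
  abel

theorem conj_tr (g : GG R) : ∃ σ : Equiv.Perm ℕ, (∃ y, g.1 = aff y σ) ∧
    ∀ v, g * tr v * g⁻¹ = tr (act σ v) := by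
  obtain ⟨g, y, v', σ, rfl, h⟩ := g
  exact ⟨σ, ⟨y, rfl⟩, fun v => Subtype.ext (aff_conj v y σ)⟩

theorem tr_not_mem [Nontrivial W] (hR : Generic R) {v : ℕ →₀ W} (hv : tr v ∈ HG R) : v = 0 := by
  by_contra hne
  obtain ⟨w, hw⟩ := exists_ne (0 : W)
  obtain ⟨b, hb, hP⟩ := hR.ext v.support {(0, w)} (Set.finite_singleton _)
  have h1 := hP 0 (fun _ _ => rfl) w hw
  have h2 := hP v (fun t ht => by simpa using ht) w hw
  have h3 := ((mem_HG _).1 hv).2 (Finsupp.single b w)
  have h4 : (tr v : GG R).1 (Finsupp.single b w) = v + Finsupp.single b w := by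
    change aff v 1 _ = _
    rw [aff_apply, act_one, add_comm]
  rw [h4] at h3
  rw [zero_add] at h1
  have h5 := h2.1 (h3.1 (h1.2 rfl))
  exact hne (congrArg Prod.fst h5)

theorem exists_perm {s s' c x : ℕ} (hs : s ≠ s') (hc : c ≠ x) :
    ∃ σ : Equiv.Perm ℕ, σ s = c ∧ σ s' = x := by
  refine ⟨Equiv.swap (Equiv.swap s c s') x * Equiv.swap s c, ?_, ?_⟩
  · rw [Equiv.Perm.mul_apply, Equiv.swap_apply_left]
    apply Equiv.swap_apply_of_ne_of_ne
    · intro h
      apply hs
      apply (Equiv.swap s c).injective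
      rw [← h, Equiv.swap_apply_left]
    · exact hc
  · rw [Equiv.Perm.mul_apply, Equiv.swap_apply_left]

/-- The elements of `H` are dense in the permutations. -/
theorem exists_h [Nontrivial W] (hR : Generic R) (σ : Equiv.Perm ℕ) (A : Finset ℕ) :
    ∃ h ∈ HG R, ∀ v : ℕ →₀ W, SuppIn v A → h * tr v * h⁻¹ = tr (act σ v) := by
  obtain ⟨w, hw⟩ := exists_ne (0 : W)
  obtain ⟨τ, c, x, -, hA, hτ⟩ := density hR 0 σ A hw
  have hm : aff ((0 : ℕ →₀ W) - Finsupp.single x w + Finsupp.single c w) τ ∈ HH R :=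
    ⟨⟨_, _, rfl⟩, hτ⟩
  refine ⟨mkG _ _ hm, hm, ?_⟩
  intro v hv
  apply Subtype.ext
  change aff _ τ * aff v 1 * (aff _ τ)⁻¹ = aff (act σ v) 1
  rw [aff_conj, act_congr hv hA]

/-- A subgroup which is normalised by `H` and contains a nonzero translation contains all
`l (δ_c - δ_x)` for some `l`. -/
theorem spread [Nontrivial W] (hR : Generic R) {K : Subgroup (GG R)}
    (hK : ∀ h ∈ HG R, ∀ k ∈ K, h * k * h⁻¹ ∈ K) {v : ℕ →₀ W} (hv : tr v ∈ K) {s : ℕ} {l : W}
    (hs : v s = l) {c x : ℕ} (hcx : c ≠ x) :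
    tr (Finsupp.single c l - Finsupp.single x l) ∈ K := by
  classical
  obtain ⟨s', hs'⟩ := Infinite.exists_notMem_finset (insert s v.support)
  have hss : s ≠ s' := fun h => hs' (by simp [h])
  have hvs' : v s' = 0 := by
    by_contra hc
    exact hs' (Finset.mem_insert_of_mem (Finsupp.mem_support_iff.2 hc))
  obtain ⟨h, hh, hconj⟩ := exists_h hR (Equiv.swap s s') v.support
  have h1 := hK h hh _ hv
  rw [hconj v (fun t ht => by simpa using ht)] at h1
  have h2 := mul_mem hv (inv_mem h1)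
  rw [tr_inv, tr_mul] at h2
  have h3 : v + -act (Equiv.swap s s') v = Finsupp.single s l - Finsupp.single s' l := by
    ext t
    rw [Finsupp.add_apply, Finsupp.neg_apply, act_apply, Finsupp.sub_apply, Equiv.symm_swap,
      Finsupp.single_apply, Finsupp.single_apply]
    by_cases ht : t = s
    · subst ht
      rw [Equiv.swap_apply_left, hvs', hs, if_pos rfl, if_neg (Ne.symm hss)]
      abel
    · by_cases ht' : t = s'
      · subst ht'
        rw [Equiv.swap_apply_right, hvs', hs, if_pos rfl, if_neg hss]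
        abel
      · rw [Equiv.swap_apply_of_ne_of_ne ht ht', if_neg (Ne.symm ht), if_neg (Ne.symm ht')]
        abel
  rw [h3] at h2
  obtain ⟨σ, hσ1, hσ2⟩ := exists_perm hss hcx
  obtain ⟨h', hh', hconj'⟩ := exists_h hR σ {s, s'}
  have h4 := hK h' hh' _ h2
  rw [hconj' _ ?_] at h4
  · rwa [act_sub, act_single, act_single, hσ1, hσ2] at h4
  · intro t ht
    simp only [Finset.mem_insert, Finset.mem_singleton, not_or] at ht
    rw [Finsupp.sub_apply, Finsupp.single_apply, Finsupp.single_apply, if_neg (Ne.symm ht.1),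
      if_neg (Ne.symm ht.2), sub_zero]

/-- A closed subgroup that contains `H` and a nonzero translation is the whole group. -/
theorem eq_top [Nontrivial W] (hR : Generic R) {K : Subgroup (GG R)}
    (hcl : IsClosed[tp (GG R)] (K : Set (GG R))) (hH : HG R ≤ K) {v : ℕ →₀ W} (hv0 : v ≠ 0)
    (hv : tr v ∈ K) : K = ⊤ := by
  classical
  obtain ⟨s, hs⟩ : ∃ s, v s ≠ 0 := by
    by_contra hc
    push Not at hc
    exact hv0 (Finsupp.ext hc)
  have hsp := fun c x (hcx : c ≠ x) => spread hR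
    (fun h hh k hk => mul_mem (mul_mem (hH hh) hk) (inv_mem (hH hh))) hv (s := s) rfl
    (c := c) (x := x) hcx
  have htr : ∀ y : ℕ →₀ W, tr y ∈ K := by
    intro y
    refine (isClosed_tp (GG R) (K : Set (GG R))).1 hcl (tr y) fun F => ?_
    obtain ⟨τ, c, x, hcx, hA, hτ⟩ := density hR y 1 (F.biUnion fun u => u.support) hs
    have hm : aff (y - Finsupp.single x (v s) + Finsupp.single c (v s)) τ ∈ HH R :=
      ⟨⟨_, _, rfl⟩, hτ⟩
    let h : GG R := mkG _ _ hm
    have hh : h ∈ HG R := hm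
    refine ⟨tr (Finsupp.single x (v s) - Finsupp.single c (v s)) * h,
      mul_mem (hsp x c (Ne.symm hcx)) (hH hh), ?_⟩
    intro u hu
    change (aff (Finsupp.single x (v s) - Finsupp.single c (v s)) 1 *
      aff (y - Finsupp.single x (v s) + Finsupp.single c (v s)) τ : Equiv.Perm (ℕ →₀ W)) u = aff y 1 u
    rw [aff_mul, aff_apply, aff_apply, act_one, act_one, one_mul]
    have e1 : act τ u = u := by
      have : act τ u = act 1 u := act_congr (A := F.biUnion fun u => u.support)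
        (fun t ht => by
          by_contra hc
          exact ht (Finset.mem_biUnion.2 ⟨u, hu, Finsupp.mem_support_iff.2 hc⟩)) hA
      rw [this, act_one]
    rw [e1]
    abel
  rw [eq_top_iff]
  intro g _
  obtain ⟨y, h, hh, rfl⟩ := decomp g
  exact mul_mem (htr y) (hH hh)

theorem irreducible [Nontrivial W] (hR : Generic R) :
    @IrreducibleCosetSpace (GG R) _ (tp (GG R)) (HG R) := by
  classical
  refine ⟨?_, ?_, ?_⟩
  · rw [isClosed_tp]
    intro g hg
    obtain ⟨g, v, v', σ, rfl, h⟩ := g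
    refine ⟨⟨v, σ, rfl⟩, fun u => ?_⟩
    obtain ⟨k, hk, hk2⟩ := hg {u}
    have := hk2 u (Finset.mem_singleton_self u)
    change u ∈ R ↔ aff v σ u ∈ R
    have e : k.1 u = aff v σ u := this
    rw [← e]
    exact hk.2 u
  · intro h
    obtain ⟨w, hw⟩ := exists_ne (0 : W)
    have h1 : tr (Finsupp.single 0 w) ∈ HG R := by rw [h]; trivial
    have h2 := tr_not_mem hR h1
    rw [Finsupp.single_eq_zero] at h2
    exact hw h2
  · intro K hK hH
    by_cases hKH : K ≤ HG R
    · exact Or.inl (le_antisymm hKH hH)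
    · right
      obtain ⟨g, hg, hg'⟩ := Set.not_subset.1 hKH
      obtain ⟨y, h, hh, rfl⟩ := decomp g
      have h1 : tr y ∈ K := by
        have := mul_mem hg (inv_mem (hH hh))
        rwa [mul_inv_cancel_right] at this
      refine eq_top hR hK hH ?_ h1
      rintro rfl
      apply hg'
      rw [tr_zero, one_mul]
      exact hh

theorem faithful [Nontrivial W] (hR : Generic R) : FaithfulCosetSpace (HG R) := by
  intro c hc
  have hcH : ∀ g : GG R, g⁻¹ * c * g ∈ HG R := by
    intro g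
    obtain ⟨h, hh, rfl⟩ := hc g
    have : g⁻¹ * (g * h * g⁻¹) * g = h := by group
    rwa [this]
  have hc1 : c ∈ HG R := by simpa using hcH 1
  obtain ⟨σ, ⟨y, hy⟩, hσ⟩ := conj_tr c
  have hfix : ∀ v : ℕ →₀ W, act σ v = v := by
    intro v
    have h1 := mul_mem hc1 (inv_mem (hcH (tr v)))
    have h2 : c * ((tr v)⁻¹ * c * tr v)⁻¹ = (c * tr (-v) * c⁻¹) * tr v := by
      rw [← tr_inv]; group
    rw [h2, hσ, tr_mul, act_neg] at h1
    have h3 := tr_not_mem hR h1
    rw [neg_add_eq_zero] at h3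
    exact h3
  have hσ1 : σ = 1 := by
    obtain ⟨w, hw⟩ := exists_ne (0 : W)
    ext t
    have h1 := hfix (Finsupp.single t w)
    rw [act_single] at h1
    exact Finsupp.single_left_injective hw h1
  subst hσ1
  have h1 : c = tr y := Subtype.ext hy
  rw [h1] at hc1 ⊢
  rw [tr_not_mem hR hc1, tr_zero]

/-- The vectors spanned by the `l (δ_c - δ_x)`. -/
noncomputable def SS (l : W) : AddSubgroup (ℕ →₀ W) :=
  AddSubgroup.closure {v | ∃ c x, c ≠ x ∧ v = Finsupp.single c l - Finsupp.single x l}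

theorem SS_val {l : W} (hl : l + l = 0) {v : ℕ →₀ W} (hv : v ∈ SS l) (t : ℕ) :
    v t = 0 ∨ v t = l := by
  have hneg : -l = l := neg_eq_of_add_eq_zero_left hl
  induction hv using AddSubgroup.closure_induction with
  | mem v hv =>
    obtain ⟨c, x, hcx, rfl⟩ := hv
    rw [Finsupp.sub_apply, Finsupp.single_apply, Finsupp.single_apply]
    split_ifs with h1 h2
    · exact absurd (h1.trans h2.symm) hcx
    · right; rw [sub_zero]
    · right; rw [zero_sub, hneg]
    · left; rw [sub_zero]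
  | zero => left; rfl
  | add a b _ _ ha hb =>
    rw [Finsupp.add_apply]
    rcases ha with ha | ha <;> rcases hb with hb | hb <;> rw [ha, hb]
    · left; rw [add_zero]
    · right; rw [zero_add]
    · right; rw [add_zero]
    · left; exact hl
  | neg a _ ha =>
    rw [Finsupp.neg_apply]
    rcases ha with ha | ha <;> rw [ha]
    · left; rw [neg_zero]
    · right; exact hneg

theorem SS_act {l : W} (σ : Equiv.Perm ℕ) {v : ℕ →₀ W} (hv : v ∈ SS l) : act σ v ∈ SS l := by
  induction hv using AddSubgroup.closure_induction with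
  | mem v hv =>
    obtain ⟨c, x, hcx, rfl⟩ := hv
    rw [act_sub, act_single, act_single]
    exact AddSubgroup.subset_closure ⟨_, _, fun h => hcx (σ.injective h), rfl⟩
  | zero => rw [act_zero]; exact zero_mem _
  | add a b _ _ ha hb => rw [act_add]; exact add_mem ha hb
  | neg a _ ha => rw [act_neg]; exact neg_mem ha

/-- The minimal normal subgroup of `l`. -/
noncomputable def MM (R : Set (ℕ →₀ W)) (l : W) : Subgroup (GG R) where
  carrier := {g | ∃ v ∈ SS l, g = tr v}
  one_mem' := ⟨0, zero_mem _, tr_zero.symm⟩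
  mul_mem' := by
    rintro _ _ ⟨v, hv, rfl⟩ ⟨v', hv', rfl⟩
    exact ⟨v + v', add_mem hv hv', tr_mul _ _⟩
  inv_mem' := by
    rintro _ ⟨v, hv, rfl⟩
    exact ⟨-v, neg_mem hv, tr_inv _⟩

theorem MM_comm (l : W) : ∀ a ∈ MM R l, ∀ b ∈ MM R l, a * b = b * a := by
  rintro _ ⟨v, -, rfl⟩ _ ⟨v', -, rfl⟩
  rw [tr_mul, tr_mul, add_comm]

theorem MM_inf {l l' : W} (hl : l + l = 0) (hl' : l' + l' = 0) (h : l ≠ l') :
    MM R l ⊓ MM R l' = ⊥ := by
  rw [eq_bot_iff]
  rintro g ⟨⟨v, hv, rfl⟩, ⟨v', hv', h2⟩⟩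
  have e := tr_inj h2
  subst e
  rw [Subgroup.mem_bot]
  have : v = 0 := by
    ext t
    rcases SS_val hl hv t with h1 | h1
    · exact h1
    · rcases SS_val hl' hv' t with h3 | h3
      · exact h3
      · exact absurd (h1.symm.trans h3) h
  rw [this, tr_zero]

theorem MM_minimal [Nontrivial W] (hR : Generic R) {l : W} (hl0 : l ≠ 0) (hl : l + l = 0) :
    MM R l ∈ @MinimalClosedNormal (GG R) _ (tp (GG R)) := by
  classical
  refine ⟨⟨?_⟩, ?_, ?_, ?_⟩
  · rintro _ ⟨v, hv, rfl⟩ g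
    obtain ⟨σ, -, hσ⟩ := conj_tr g
    exact ⟨_, SS_act σ hv, hσ v⟩
  · rw [isClosed_tp]
    intro g hg
    obtain ⟨g, y, y', σ, rfl, h⟩ := g
    obtain ⟨w, hw⟩ := exists_ne (0 : W)
    have key : ∀ u : ℕ →₀ W, ∃ v ∈ SS l, y = v ∧ act σ u = u := by
      intro u
      obtain ⟨k, ⟨v, hv, rfl⟩, hk⟩ := hg {0, u}
      have h1 : aff v 1 0 = aff y σ 0 := hk 0 (by simp)
      have h2 : aff v 1 u = aff y σ u := hk u (by simp)
      rw [aff_apply, aff_apply, act_zero, act_zero, zero_add, zero_add] at h1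
      rw [aff_apply, aff_apply, act_one, h1] at h2
      exact ⟨v, hv, h1.symm, (add_right_cancel h2).symm⟩
    have hσ : σ = 1 := by
      ext t
      obtain ⟨v, -, -, h1⟩ := key (Finsupp.single t w)
      rw [act_single] at h1
      exact Finsupp.single_left_injective hw h1
    obtain ⟨v, hv, hy, -⟩ := key 0
    refine ⟨v, hv, Subtype.ext ?_⟩
    change aff y σ = aff v 1
    rw [hσ, hy]
  · intro h
    have h1 : tr (Finsupp.single 0 l - Finsupp.single 1 l) ∈ MM R l :=
      ⟨_, AddSubgroup.subset_closure ⟨0, 1, by decide, rfl⟩, rfl⟩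
    rw [h, Subgroup.mem_bot, ← tr_zero] at h1
    have h2 := DFunLike.congr_fun (tr_inj h1) 0
    rw [Finsupp.sub_apply, Finsupp.single_apply, Finsupp.single_apply, if_pos rfl,
      if_neg (by decide), sub_zero] at h2
    exact hl0 h2
  · intro N hN _ hNM
    by_cases hbot : N = ⊥
    · exact Or.inl hbot
    · right
      apply le_antisymm hNM
      obtain ⟨⟨g, hg⟩, hg1'⟩ := Subgroup.ne_bot_iff_exists_ne_one.1 hbot
      have hg1 : g ≠ 1 := fun h => hg1' (Subtype.ext h)
      clear hg1'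
      obtain ⟨v, hv, rfl⟩ := hNM hg
      obtain ⟨s, hs⟩ : ∃ s, v s ≠ 0 := by
        by_contra hc
        push Not at hc
        exact hg1 (by rw [show v = 0 from Finsupp.ext hc, tr_zero])
      have hs' : v s = l := (SS_val hl hv s).resolve_left hs
      have hsp := fun c x (hcx : c ≠ x) => spread hR
        (fun h _ k hk => hN.conj_mem k hk h) hg hs' (c := c) (x := x) hcx
      rintro _ ⟨y, hy, rfl⟩
      clear hv
      induction hy using AddSubgroup.closure_induction with
      | mem v hv =>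
        obtain ⟨c, x, hcx, rfl⟩ := hv
        exact hsp c x hcx
      | zero => rw [tr_zero]; exact one_mem _
      | add a b _ _ ha hb => rw [← tr_mul]; exact mul_mem ha hb
      | neg a _ ha => rw [← tr_inv]; exact inv_mem ha

end Pool.Agent.Q104.IC
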