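import Mathlib

/-!
The topology of pointwise convergence on a group of permutations of a set.
-/

set_option autoImplicit false

namespace Pool.Agent.Q104.IC

open Topology

section top

variable {α : Type*} (G : Subgroup (Equiv.Perm α))

/-- The topology of pointwise convergence on a group of permutations. -/
@[reducible] def tp : TopologicalSpace G where
  IsOpen U := ∀ g ∈ U, ∃ F : Finset α, ∀ h : G, (∀ x ∈ F, h.1 x = g.1 x) → h ∈ U
  isOpen_univ := fun _ _ => ⟨∅, fun _ _ => trivial⟩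
  isOpen_inter := by
    classical
    rintro U V hU hV g ⟨h1, h2⟩
    obtain ⟨F1, hF1⟩ := hU g h1
    obtain ⟨F2, hF2⟩ := hV g h2
    exact ⟨F1 ∪ F2, fun h hh => ⟨hF1 h fun x hx => hh x (Finset.mem_union_left _ hx),
      hF2 h fun x hx => hh x (Finset.mem_union_right _ hx)⟩⟩
  isOpen_sUnion := by
    rintro s hs g ⟨U, hU, hg⟩
    obtain ⟨F, hF⟩ := hs U hU g hg
    exact ⟨F, fun h hh => ⟨U, hU, hF h hh⟩⟩

theorem isOpen_tp (U : Set G) : IsOpen[tp G] U ↔
    ∀ g ∈ U, ∃ F : Finset α, ∀ h : G, (∀ x ∈ F, h.1 x = g.1 x) → h ∈ U := Iff.rfl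

/-- Basic neighbourhoods. -/
def ball (g : G) (F : Finset α) : Set G := {h | ∀ x ∈ F, h.1 x = g.1 x}

theorem isOpen_ball (g : G) (F : Finset α) : IsOpen[tp G] (ball G g F) := by
  intro h hh
  exact ⟨F, fun k hk x hx => (hk x hx).trans (hh x hx)⟩

theorem nhds_tp (g : G) : (@nhds G (tp G) g).HasBasis (fun _ : Finset α => True)
    (fun F => ball G g F) := by
  let _ := tp G
  constructor
  intro t
  rw [mem_nhds_iff]
  constructor
  · rintro ⟨U, hUt, hU, hg⟩
    obtain ⟨F, hF⟩ := hU g hg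
    exact ⟨F, trivial, fun h hh => hUt (hF h hh)⟩
  · rintro ⟨F, -, hF⟩
    exact ⟨ball G g F, hF, isOpen_ball G g F, fun _ _ => rfl⟩

theorem topGroup : @IsTopologicalGroup G (tp G) _ := by
  classical
  let _ := tp G
  refine { continuous_mul := ?_, continuous_inv := ?_ }
  · rw [continuous_iff_continuousAt]
    rintro ⟨g, h⟩
    rw [ContinuousAt, nhds_prod_eq, ((nhds_tp G g).prod (nhds_tp G h)).tendsto_iff (nhds_tp G _)]
    rintro F -
    refine ⟨(F.image h.1, F), ⟨trivial, trivial⟩, ?_⟩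
    rintro ⟨g', h'⟩ ⟨hg', hh'⟩ x hx
    have e1 : h'.1 x = h.1 x := hh' x hx
    have e2 : g'.1 (h.1 x) = g.1 (h.1 x) := hg' _ (Finset.mem_image_of_mem _ hx)
    change (g'.1 * h'.1) x = (g.1 * h.1) x
    rw [Equiv.Perm.mul_apply, Equiv.Perm.mul_apply, e1, e2]
  · rw [continuous_iff_continuousAt]
    intro g
    rw [ContinuousAt, (nhds_tp G g).tendsto_iff (nhds_tp G _)]
    rintro F -
    refine ⟨F.image (g.1⁻¹ : Equiv.Perm α), trivial, ?_⟩
    intro g' hg' x hx
    have e : g'.1 ((g.1⁻¹ : Equiv.Perm α) x) = g.1 ((g.1⁻¹ : Equiv.Perm α) x) :=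
      hg' _ (Finset.mem_image_of_mem _ hx)
    change (g'.1⁻¹ : Equiv.Perm α) x = (g.1⁻¹ : Equiv.Perm α) x
    have e3 : g.1 ((g.1⁻¹ : Equiv.Perm α) x) = x := by simp
    rw [e3] at e
    apply g'.1.injective
    rw [e]
    simp

theorem t2 : @T2Space G (tp G) := by
  let _ := tp G
  refine ⟨fun g h hgh => ?_⟩
  have : ∃ x, g.1 x ≠ h.1 x := by
    by_contra hc
    push Not at hc
    exact hgh (Subtype.ext (Equiv.ext hc))
  obtain ⟨x, hx⟩ := this
  refine ⟨ball G g {x}, ball G h {x}, isOpen_ball G g _, isOpen_ball G h _, fun _ _ => rfl,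
    fun _ _ => rfl, ?_⟩
  rw [Set.disjoint_left]
  intro k hk1 hk2
  exact hx ((hk1 x (Finset.mem_singleton_self x)).symm.trans (hk2 x (Finset.mem_singleton_self x)))

/-- A set is closed iff it contains all its pointwise limits. -/
theorem isClosed_tp (K : Set G) : IsClosed[tp G] K ↔
    ∀ g : G, (∀ F : Finset α, ∃ k ∈ K, ∀ x ∈ F, k.1 x = g.1 x) → g ∈ K := by
  let _ := tp G
  rw [← isOpen_compl_iff, isOpen_tp]
  constructor
  · intro h g hg
    by_contra hc
    obtain ⟨F, hF⟩ := h g hc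
    obtain ⟨k, hk, hk'⟩ := hg F
    exact hF k hk' hk
  · intro h g hg
    by_contra hc
    push Not at hc
    refine hg (h g fun F => ?_)
    obtain ⟨k, hk, hk'⟩ := hc F
    exact ⟨k, by simpa using hk', hk⟩

end top

end Pool.Agent.Q104.IC
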